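import Mathlib
import Pool.Agent.V11269.T4Defs

/-!
The rank-one convex hull of a set of upper triangular 2 x 2 matrices, and the iteration defining
the T4-convex hull, exactly as in MP_9768d1_an.  `Pt`, `RankOneDir`, `RankOneConvex` and `IsT4`
are the definitions of `Pool.Agent.V11269.T4Defs`.
-/

namespace Pool.Agent.V11250.TF

open Pool.Agent.V11269.T4 (Pt RankOneDir RankOneConvex IsT4)

/-- The rank-one convex hull: the points `A` such that `f A ≤ max_K f` for every rank-one convex
function `f` (every upper bound `c` of `f` on `K` is an upper bound of `f A`). -/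
def rcHull (K : Set Pt) : Set Pt :=
  {A | ∀ f : Pt → ℝ, RankOneConvex f → ∀ c : ℝ, (∀ B ∈ K, f B ≤ c) → f A ≤ c}

/-- One step of the iteration: the union of the rank-one convex hulls of all `T₄` configurations
of points of `K` and of all closed rank-one segments with both endpoints in `K`. -/
def next (K : Set Pt) : Set Pt :=
  {A | ∃ T : Fin 4 → Pt, IsT4 T ∧ (∀ j, T j ∈ K) ∧ A ∈ rcHull (Set.range T)} ∪
    {C | ∃ A ∈ K, ∃ B ∈ K, RankOneDir (B - A) ∧ C ∈ segment ℝ A B}

/-- The sets `K⁽ⁱ⁾`. -/
def stage (K : Set Pt) : ℕ → Set Pt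
  | 0 => K
  | i + 1 => next (stage K i)

/-- The `T₄`-convex hull, the union of all `K⁽ⁱ⁾`. -/
def t4Hull (K : Set Pt) : Set Pt := ⋃ i, stage K i

end Pool.Agent.V11250.TF
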