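import Mathlib
import Pool.Agent.V11269.T4Proof
import Pool.Agent.V11250.TF.Defs

namespace Pool.Agent.V11250.TF

open Pool.Agent.V11269.T4 (Pt RankOneDir RankOneConvex IsT4 G U w hp out F gT uT kn kp K6 S
  sepConc_G sepConc_U U_le_G G_kp U_kp gap_zero kn_inj1 kp_mem_S rankOneConvex_of_sepConc
  SepConc rankOne_le kp_eq F_node)
open Filter Topology

/-! ### Continuity of the barriers -/

lemma cont_hp (k : ℝ) : Continuous (hp k) := by
  unfold hp
  exact (continuous_id.sub continuous_const).max continuous_const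

lemma cont_w (i : Fin 6) : Continuous (w i) := by
  have h := cont_hp
  fin_cases i
  · exact (continuous_const.sub (h 0)).add (h 1)
  · exact ((h 0).sub (continuous_const.mul (h 1))).add (h 2)
  · exact ((h 1).sub (continuous_const.mul (h 2))).add (h 3)
  · exact ((h 2).sub (continuous_const.mul (h 3))).add (h 4)
  · exact ((h 3).sub (continuous_const.mul (h 4))).add (h 5)
  · exact (h 4).sub (h 5)

lemma cont_out : Continuous out := by
  unfold out
  exact (continuous_neg.max continuous_const).add (cont_hp 5)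

lemma cont_F (M : ℤ) (v : Fin 6 → Fin 6 → ℤ) : Continuous (fun A : Pt => F M v A.1 A.2.1) := by
  unfold F
  have hx : Continuous (fun A : Pt => A.1) := continuous_fst
  have hy : Continuous (fun A : Pt => A.2.1) := continuous_fst.comp continuous_snd
  refine Continuous.sub ?_ (continuous_const.mul
    ((cont_out.comp hx).add (cont_out.comp hy)))
  refine continuous_finsetSum _ fun i _ => continuous_finsetSum _ fun j _ => ?_
  exact (continuous_const.mul ((cont_w i).comp hx)).mul ((cont_w j).comp hy)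

/-! ### The barrier belonging to four points of `S` -/

lemma exists_barrier (T : Fin 4 → Pt) (hT : ∀ k, T k ∈ S) : ∃ (m : Fin 6) (ε : ℝ), 0 < ε ∧
    ε ≤ 1 ∧ ∀ k, (T k).2.2 ≤ (1 - ε) * G (T k).1 (T k).2.1 + ε * U m (T k).1 (T k).2.1 := by
  obtain ⟨m, hm⟩ : ∃ m, kp m ∉ Set.range T := by
    by_contra hcon
    push Not at hcon
    choose g hg using hcon
    have hinj : Function.Injective g := by
      intro a b hab
      have : kp a = kp b := by rw [← hg a, ← hg b, hab]
      have h1 : ((kn a).1.val : ℝ) = ((kn b).1.val : ℝ) := congrArg Prod.fst this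
      have h2 : (kn a).1.val = (kn b).1.val := by exact_mod_cast h1
      exact kn_inj1 a b (Fin.ext h2)
    have := Fintype.card_le_of_injective g hinj
    simp at this
  have hex : ∀ k, ∃ e : ℝ, 0 < e ∧ e ≤ 1 ∧ ∀ e', 0 ≤ e' → e' ≤ e →
      (T k).2.2 ≤ (1 - e') * G (T k).1 (T k).2.1 + e' * U m (T k).1 (T k).2.1 := by
    intro k
    by_cases hk : T k ∈ K6
    · obtain ⟨l, hl⟩ := hk
      have hlm : l ≠ m := by
        rintro rfl
        exact hm ⟨k, hl.symm⟩
      refine ⟨1, one_pos, le_refl _, fun e' _ _ => ?_⟩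
      rw [← hl, G_kp, U_kp hlm]
      apply le_of_eq; ring
    · have h1 := (hT k).1
      have h2 : (T k).2.2 < G (T k).1 (T k).2.1 :=
        lt_of_le_of_ne h1 fun h => hk ((hT k).2 h)
      have hd := U_le_G m (T k).1 (T k).2.1
      set a := G (T k).1 (T k).2.1 with ha
      set b := U m (T k).1 (T k).2.1 with hb
      set z := (T k).2.2 with hz
      have hpos : 0 < a - b + 1 := by linarith
      refine ⟨min 1 ((a - z) / (a - b + 1)), lt_min one_pos (div_pos (by linarith) hpos),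
        min_le_left _ _, fun e' he0 he' => ?_⟩
      have h3 : e' ≤ (a - z) / (a - b + 1) := he'.trans (min_le_right _ _)
      rw [le_div_iff₀ hpos] at h3
      nlinarith
  choose e he0 he1 he using hex
  set ε : ℝ := min (min (e 0) (e 1)) (min (e 2) (e 3)) with hε
  have hε0 : 0 < ε := lt_min (lt_min (he0 0) (he0 1)) (lt_min (he0 2) (he0 3))
  have hεk : ∀ k, ε ≤ e k := by
    intro k
    fin_cases k
    · exact (min_le_left _ _).trans (min_le_left _ _)
    · exact (min_le_left _ _).trans (min_le_right _ _)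
    · exact (min_le_right _ _).trans (min_le_left _ _)
    · exact (min_le_right _ _).trans (min_le_right _ _)
  exact ⟨m, ε, hε0, (hεk 0).trans (he1 0), fun k => he k ε hε0.le (hεk k)⟩

lemma mem_S_of_barrier {m : Fin 6} {ε : ℝ} (hε0 : 0 < ε) {A : Pt}
    (hA' : A.2.2 ≤ (1 - ε) * G A.1 A.2.1 + ε * U m A.1 A.2.1) : A ∈ S := by
  have hUG := U_le_G m A.1 A.2.1
  refine ⟨by nlinarith, fun hEq => ?_⟩
  have hGU : G A.1 A.2.1 ≤ U m A.1 A.2.1 := by
    rw [hEq] at hA'
    have : ε * G A.1 A.2.1 ≤ ε * U m A.1 A.2.1 := by linarith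
    exact le_of_mul_le_mul_left this hε0
  obtain ⟨l, _, hx, hy⟩ := gap_zero m hGU
  refine ⟨l, ?_⟩
  have hz : (kp l).2.2 = A.2.2 := by
    rw [← G_kp l, hEq]
    show G ((kn l).1.val : ℝ) ((kn l).2.val : ℝ) = _
    rw [← hx, ← hy]
  exact Prod.ext hx.symm (Prod.ext hy.symm hz)

/-! ### Boxes -/

/-- The closed box of half-width `R`. -/
def Box (R : ℝ) : Set Pt := Set.Icc (-R) R ×ˢ (Set.Icc (-R) R ×ˢ Set.Icc (-R) R)

lemma isCompact_Box (R : ℝ) : IsCompact (Box R) :=
  isCompact_Icc.prod (isCompact_Icc.prod isCompact_Icc)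

lemma convexOn_affine (a b : ℝ) : ConvexOn ℝ Set.univ (fun t : ℝ => a + t * b) := by
  refine ⟨convex_univ, fun x _ y _ s t _ _ hst => ?_⟩
  simp only [smul_eq_mul]
  have : a = (s + t) * a := by rw [hst, one_mul]
  apply le_of_eq
  linear_combination this

lemma roc_coord (s : ℝ) :
    RankOneConvex (fun B => s * B.1) ∧ RankOneConvex (fun B => s * B.2.1) ∧
      RankOneConvex (fun B => s * B.2.2) := by
  refine ⟨fun A d _ => ?_, fun A d _ => ?_, fun A d _ => ?_⟩
  · have := convexOn_affine (s * A.1) (s * d.1)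
    have e : (fun t : ℝ => s * (A + t • d).1) = fun t => s * A.1 + t * (s * d.1) := by
      funext t
      simp only [Prod.fst_add, Prod.smul_fst, smul_eq_mul]
      ring
    show ConvexOn ℝ Set.univ (fun t : ℝ => s * (A + t • d).1)
    rw [e]; exact this
  · have := convexOn_affine (s * A.2.1) (s * d.2.1)
    have e : (fun t : ℝ => s * (A + t • d).2.1) = fun t => s * A.2.1 + t * (s * d.2.1) := by
      funext t
      simp only [Prod.fst_add, Prod.snd_add, Prod.smul_fst, Prod.smul_snd, smul_eq_mul]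
      ring
    show ConvexOn ℝ Set.univ (fun t : ℝ => s * (A + t • d).2.1)
    rw [e]; exact this
  · have := convexOn_affine (s * A.2.2) (s * d.2.2)
    have e : (fun t : ℝ => s * (A + t • d).2.2) = fun t => s * A.2.2 + t * (s * d.2.2) := by
      funext t
      simp only [Prod.snd_add, Prod.smul_snd, smul_eq_mul]
      ring
    show ConvexOn ℝ Set.univ (fun t : ℝ => s * (A + t • d).2.2)
    rw [e]; exact this

lemma rcHull_box {R : ℝ} {K : Set Pt} (h : K ⊆ Box R) : rcHull K ⊆ Box R := by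
  intro A hA
  have key : ∀ s : ℝ, (s = 1 ∨ s = -1) → s * A.1 ≤ R ∧ s * A.2.1 ≤ R ∧ s * A.2.2 ≤ R := by
    intro s hs
    refine ⟨hA _ (roc_coord s).1 R fun B hB => ?_, hA _ (roc_coord s).2.1 R fun B hB => ?_,
      hA _ (roc_coord s).2.2 R fun B hB => ?_⟩
    · obtain ⟨⟨h1, h2⟩, _⟩ := h hB
      rcases hs with rfl | rfl
      · linarith
      · linarith
    · obtain ⟨_, ⟨h1, h2⟩, _⟩ := h hB
      rcases hs with rfl | rfl
      · linarith
      · linarith
    · obtain ⟨_, _, ⟨h1, h2⟩⟩ := h hB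
      rcases hs with rfl | rfl
      · linarith
      · linarith
  obtain ⟨a1, a2, a3⟩ := key 1 (Or.inl rfl)
  obtain ⟨b1, b2, b3⟩ := key (-1) (Or.inr rfl)
  exact ⟨⟨by linarith, by linarith⟩, ⟨by linarith, by linarith⟩, ⟨by linarith, by linarith⟩⟩

/-! ### Hulls of at most four points -/

/-- All rank-one convex hulls of four points of `Z`. -/
def Q (Z : Set Pt) : Set Pt := {A | ∃ T : Fin 4 → Pt, (∀ k, T k ∈ Z) ∧ A ∈ rcHull (Set.range T)}

lemma Q_box {R : ℝ} {Z : Set Pt} (h : Z ⊆ Box R) : Q Z ⊆ Box R := by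
  rintro A ⟨T, hT, hA⟩
  refine rcHull_box ?_ hA
  rintro B ⟨k, rfl⟩
  exact h (hT k)

lemma closure_Q {R : ℝ} {Z : Set Pt} (hb : Z ⊆ Box R) (hc : closure Z ⊆ S) :
    closure (Q Z) ⊆ S := by
  intro A hA
  obtain ⟨a, ha, hlim⟩ := mem_closure_iff_seq_limit.mp hA
  choose T hT haT using ha
  have hcomp : IsCompact (closure Z) :=
    (isCompact_Box R).of_isClosed_subset isClosed_closure
      (closure_minimal hb (isCompact_Box R).isClosed)
  have hcomp' : IsCompact (Set.pi Set.univ (fun _ : Fin 4 => closure Z)) :=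
    isCompact_univ_pi fun _ => hcomp
  obtain ⟨T0, hT0, φ, hφ, hφlim⟩ := hcomp'.tendsto_subseq
    (x := T) (fun n k _ => subset_closure (hT n k))
  have hT0S : ∀ k, T0 k ∈ S := fun k => hc (hT0 k (Set.mem_univ k))
  obtain ⟨m, ε, hε0, hε1, hε⟩ := exists_barrier T0 hT0S
  have hsc : SepConc (fun x y => (1 - ε) * G x y + ε * U m x y) :=
    sepConc_G.comb (sepConc_U m) hε0.le hε1
  set g : Pt → ℝ := fun B => max (B.2.2 - ((1 - ε) * G B.1 B.2.1 + ε * U m B.1 B.2.1)) 0 with hg
  have hroc : RankOneConvex g := rankOneConvex_of_sepConc hsc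
  have hgc : Continuous g := by
    have c1 : Continuous (fun A : Pt => A.2.2) := continuous_snd.comp continuous_snd
    have c2 : Continuous (fun A : Pt => G A.1 A.2.1) := cont_F _ _
    have c3 : Continuous (fun A : Pt => U m A.1 A.2.1) := cont_F _ _
    exact (c1.sub ((continuous_const.mul c2).add (continuous_const.mul c3))).max continuous_const
  have hg0 : ∀ k, g (T0 k) ≤ 0 := fun k => max_le (by linarith [hε k]) le_rfl
  have hgA : g A ≤ 0 := by
    apply le_of_forall_pos_le_add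
    intro η hη
    rw [zero_add]
    have hev : ∀ k, ∀ᶠ n in atTop, g (T (φ n) k) ≤ η := by
      intro k
      have h1 : Tendsto (fun n => (T ∘ φ) n k) atTop (𝓝 (T0 k)) :=
        (tendsto_pi_nhds.mp hφlim) k
      have h2 : Tendsto (fun n => g ((T ∘ φ) n k)) atTop (𝓝 (g (T0 k))) :=
        (hgc.tendsto _).comp h1
      have h3 : g (T0 k) < η := lt_of_le_of_lt (hg0 k) hη
      exact (h2.eventually (gt_mem_nhds h3)).mono fun n hn => le_of_lt hn
    have hall : ∀ᶠ n in atTop, ∀ k, g (T (φ n) k) ≤ η := eventually_all.mpr hev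
    have hA2 : ∀ᶠ n in atTop, g (a (φ n)) ≤ η := by
      filter_upwards [hall] with n hn
      apply haT (φ n) g hroc η
      rintro B ⟨k, rfl⟩
      exact hn k
    have hlim2 : Tendsto (fun n => g (a (φ n))) atTop (𝓝 (g A)) :=
      (hgc.tendsto _).comp (hlim.comp hφ.tendsto_atTop)
    exact le_of_tendsto hlim2 hA2
  have := (le_max_left _ _).trans hgA
  exact mem_S_of_barrier (m := m) hε0 (by linarith)

lemma next_subset_Q (Z : Set Pt) : next Z ⊆ Q Z := by
  rintro A (⟨T, _, hT, hA⟩ | ⟨B, hB, C, hC, hd, hA⟩)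
  · exact ⟨T, hT, hA⟩
  · refine ⟨![B, C, C, C], by intro k; fin_cases k <;> simp [hB, hC], ?_⟩
    intro f hf c h0
    rw [segment_eq_image'] at hA
    obtain ⟨t, ⟨ht0, ht1⟩, rfl⟩ := hA
    have h := rankOne_le hf (P := B) hd ht0 ht1
    have e1 : B + (C - B) = C := by abel
    rw [e1] at h
    have fB : f B ≤ c := h0 B ⟨0, rfl⟩
    have fC : f C ≤ c := h0 C ⟨1, rfl⟩
    have h1 := mul_le_mul_of_nonneg_left fB (show 0 ≤ 1 - t by linarith)
    have h2 := mul_le_mul_of_nonneg_left fC ht0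
    show f (B + t • (C - B)) ≤ c
    linarith

lemma next_mono {Z Z' : Set Pt} (h : Z ⊆ Z') : next Z ⊆ next Z' := by
  rintro A (⟨T, hT4, hT, hA⟩ | ⟨B, hB, C, hC, hd, hA⟩)
  · exact Or.inl ⟨T, hT4, fun j => h (hT j), hA⟩
  · exact Or.inr ⟨B, h hB, C, h hC, hd, hA⟩

/-! ### The finite set -/

/-- The starting point below the cycle. -/
noncomputable def s0 : Pt := (1, 1, -1)

/-- The vertical direction. -/
noncomputable def ez : Pt := (0, 0, 1)

noncomputable def base : Set Pt := K6 ∪ {s0}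

/-- The finite set: the six points, the starting point and their vertical translates. -/
noncomputable def KK : Set Pt := base ∪ (fun q => q - ez) '' base

lemma finite_base : base.Finite := (Set.finite_range kp).union (Set.finite_singleton _)

lemma finite_KK : KK.Finite := finite_base.union (finite_base.image _)

lemma G_one_one : G 1 1 = 0 := by
  have := F_node 400000 gT 1 1
  have e : gT 1 1 = 0 := by decide
  rw [e] at this
  simpa [G] using this

lemma s0_mem : s0 ∈ S := by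
  have h : s0.2.2 < G s0.1 s0.2.1 := by
    show (-1 : ℝ) < G 1 1
    rw [G_one_one]; norm_num
  exact ⟨h.le, fun he => absurd he h.ne⟩

lemma base_S : base ⊆ S := by
  rintro A (⟨l, rfl⟩ | rfl)
  · exact kp_mem_S l
  · exact s0_mem

lemma KK_S : KK ⊆ S := by
  rintro A (hA | ⟨q, hq, rfl⟩)
  · exact base_S hA
  · have h := (base_S hq).1
    have h' : (q - ez).2.2 < G (q - ez).1 (q - ez).2.1 := by
      have e1 : (q - ez).1 = q.1 := by simp [ez]
      have e2 : (q - ez).2.1 = q.2.1 := by simp [ez]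
      have e3 : (q - ez).2.2 = q.2.2 - 1 := by simp [ez]
      rw [e1, e2, e3]; linarith
    exact ⟨h'.le, fun he => absurd he h'.ne⟩

lemma KK_box : ∃ R, KK ⊆ Box R := by
  obtain ⟨R, hR⟩ := finite_KK.isBounded.exists_norm_le
  refine ⟨R, fun A hA => ?_⟩
  have h := hR A hA
  have h1 : ‖A.1‖ ≤ R := (norm_fst_le A).trans h
  have h2 : ‖A.2.1‖ ≤ R := (norm_fst_le A.2).trans ((norm_snd_le A).trans h)
  have h3 : ‖A.2.2‖ ≤ R := (norm_snd_le A.2).trans ((norm_snd_le A).trans h)
  rw [Real.norm_eq_abs, abs_le] at h1 h2 h3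
  exact ⟨h1, h2, h3⟩

lemma stage_inv {R : ℝ} (hR : KK ⊆ Box R) (i : ℕ) :
    stage KK i ⊆ Box R ∧ closure (stage KK i) ⊆ S := by
  induction i with
  | zero =>
    refine ⟨hR, ?_⟩
    show closure KK ⊆ S
    rw [finite_KK.isClosed.closure_eq]
    exact KK_S
  | succ i ih =>
    exact ⟨(next_subset_Q _).trans (Q_box ih.1),
      (closure_mono (next_subset_Q _)).trans (closure_Q ih.1 ih.2)⟩

lemma ez_dir : RankOneDir ez := by
  refine ⟨?_, by simp [ez]⟩
  intro h
  have := congrArg (fun q : Pt => q.2.2) h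
  simp [ez] at this

lemma stage_mono (i : ℕ) : stage KK i ⊆ stage KK (i + 1) := by
  induction i with
  | zero =>
    rintro A (hA | ⟨q, hq, rfl⟩)
    · refine Or.inr ⟨A - ez, Or.inr ⟨A, hA, rfl⟩, A, Or.inl hA, ?_, right_mem_segment ℝ _ _⟩
      have : A - (A - ez) = ez := by abel
      rw [this]; exact ez_dir
    · refine Or.inr ⟨q - ez, Or.inr ⟨q, hq, rfl⟩, q, Or.inl hq, ?_, left_mem_segment ℝ _ _⟩
      have : q - (q - ez) = ez := by abel
      rw [this]; exact ez_dir
  | succ i ih => exact next_mono ih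

lemma stage_le {i j : ℕ} (h : i ≤ j) : stage KK i ⊆ stage KK j := by
  induction h with
  | refl => exact subset_rfl
  | step _ ih => exact ih.trans (stage_mono _)

lemma kp_stage (l : Fin 6) (i : ℕ) : kp l ∈ stage KK i :=
  stage_le (Nat.zero_le i) (Or.inl (Or.inl ⟨l, rfl⟩))

/-- One move towards one of the six points. -/
lemma move {i : ℕ} {A B C : Pt} (hA : A ∈ stage KK i) (hB : B ∈ stage KK i) (t : ℝ)
    (ht0 : 0 ≤ t) (ht1 : t ≤ 1) (hd : RankOneDir (B - A)) (hC : C = A + t • (B - A)) :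
    C ∈ stage KK (i + 1) := by
  refine Or.inr ⟨A, hA, B, hB, hd, ?_⟩
  rw [segment_eq_image']
  exact ⟨t, ⟨ht0, ht1⟩, hC.symm⟩

lemma dir_x {A B : Pt} (h1 : B.1 - A.1 ≠ 0) (h2 : B.2.1 - A.2.1 = 0) : RankOneDir (B - A) := by
  refine ⟨fun h => h1 (congrArg Prod.fst h), ?_⟩
  show (B.1 - A.1) * (B.2.1 - A.2.1) = 0
  rw [h2, mul_zero]

lemma dir_y {A B : Pt} (h1 : B.1 - A.1 = 0) (h2 : B.2.1 - A.2.1 ≠ 0) : RankOneDir (B - A) := by
  refine ⟨fun h => h2 (congrArg (fun q : Pt => q.2.1) h), ?_⟩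
  show (B.1 - A.1) * (B.2.1 - A.2.1) = 0
  rw [h1, zero_mul]

lemma cycle {i : ℕ} {c : ℝ} (h : ((1, 1, -c) : Pt) ∈ stage KK i) :
    ((1, 1, -(c / 162)) : Pt) ∈ stage KK (i + 6) := by
  obtain ⟨k0, k1, k2, k3, k4, k5⟩ := kp_eq
  have z0 := kp_stage 0 i
  have z1 := kp_stage 1 (i + 1)
  have z2 := kp_stage 2 (i + 2)
  have z3 := kp_stage 3 (i + 3)
  have z4 := kp_stage 4 (i + 4)
  have z5 := kp_stage 5 (i + 5)
  rw [k0] at z0
  rw [k1] at z1
  rw [k2] at z2
  rw [k3] at z3
  rw [k4] at z4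
  rw [k5] at z5
  have a1 : ((4, 1, -(c / 4)) : Pt) ∈ stage KK (i + 1) := by
    refine move h z0 (3 / 4) (by norm_num) (by norm_num) (dir_x (by norm_num) (by norm_num)) ?_
    ext <;> simp <;> ring
  have a2 : ((4, 2, -(c / 6)) : Pt) ∈ stage KK (i + 2) := by
    refine move a1 z1 (1 / 3) (by norm_num) (by norm_num) (dir_y (by norm_num) (by norm_num)) ?_
    ext <;> simp <;> ring
  have a3 : ((3, 2, 3000 - c / 12) : Pt) ∈ stage KK (i + 3) := by
    refine move a2 z2 (1 / 2) (by norm_num) (by norm_num) (dir_x (by norm_num) (by norm_num)) ?_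
    ext <;> simp <;> ring
  have a4 : ((3, 3, 2000 - c / 18) : Pt) ∈ stage KK (i + 4) := by
    refine move a3 z3 (1 / 3) (by norm_num) (by norm_num) (dir_y (by norm_num) (by norm_num)) ?_
    ext <;> simp <;> ring
  have a5 : ((1, 3, -(c / 54)) : Pt) ∈ stage KK (i + 5) := by
    refine move a4 z4 (2 / 3) (by norm_num) (by norm_num) (dir_x (by norm_num) (by norm_num)) ?_
    ext <;> simp <;> ring
  refine move a5 z5 (2 / 3) (by norm_num) (by norm_num) (dir_y (by norm_num) (by norm_num)) ?_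
  ext <;> simp <;> ring

lemma reach (n : ℕ) : ((1, 1, -((1 / 162 : ℝ) ^ n)) : Pt) ∈ stage KK (6 * n) := by
  induction n with
  | zero =>
    show ((1, 1, -((1 / 162 : ℝ) ^ 0)) : Pt) ∈ stage KK 0
    rw [pow_zero]
    exact Or.inl (Or.inr rfl)
  | succ n ih =>
    have h := cycle ih
    have e : (1 / 162 : ℝ) ^ n / 162 = (1 / 162 : ℝ) ^ (n + 1) := by rw [pow_succ]; ring
    rw [e] at h
    exact h

lemma limit_not_mem : ((1, 1, 0) : Pt) ∉ S := by
  intro hS
  have := hS.2 (by show (0:ℝ) = G 1 1; rw [G_one_one])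
  obtain ⟨l, hl⟩ := this
  have h1 : ((kn l).1.val : ℝ) = 1 := congrArg Prod.fst hl
  have h2 : ((kn l).2.val : ℝ) = 1 := congrArg (fun q : Pt => q.2.1) hl
  have h1' : (kn l).1.val = 1 := by exact_mod_cast h1
  have h2' : (kn l).2.val = 1 := by exact_mod_cast h2
  have : ∀ l, ¬ ((kn l).1.val = 1 ∧ (kn l).2.val = 1) := by decide
  exact this l ⟨h1', h2'⟩

/-- No stage contains all the points converging to the missing point. -/
lemma exists_not_mem (N : ℕ) : ∃ n, ((1, 1, -((1 / 162 : ℝ) ^ n)) : Pt) ∉ stage KK N := by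
  by_contra hcon
  push Not at hcon
  obtain ⟨R, hR⟩ := KK_box
  apply limit_not_mem
  apply (stage_inv hR N).2
  rw [mem_closure_iff_seq_limit]
  refine ⟨fun n => (1, 1, -((1 / 162 : ℝ) ^ n)), hcon, ?_⟩
  have h : Tendsto (fun n : ℕ => (1 / 162 : ℝ) ^ n) atTop (𝓝 0) :=
    tendsto_pow_atTop_nhds_zero_of_lt_one (by norm_num) (by norm_num)
  have h' : Tendsto (fun n : ℕ => -((1 / 162 : ℝ) ^ n)) atTop (𝓝 0) := by
    simpa using h.neg
  exact tendsto_const_nhds.prodMk_nhds (tendsto_const_nhds.prodMk_nhds h')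

end Pool.Agent.V11250.TF
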